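import Pool.Agent.U307.NIL.Stm

/-!
# Project NIL, package FIN (helper678): quotients by powers, exponents of nilpotent groups
-/

set_option autoImplicit false

namespace Pool.Agent.U678.NIL

open Pool.Agent.U307.NIL

theorem D_one {M : Type} [Group M] (i : ℕ) : D^[i] (fun _ : ℕ => (1 : M)) = fun _ => 1 := by
  induction i with
  | zero => rfl
  | succ i ih =>
    rw [Function.iterate_succ_apply', ih]
    funext n
    simp [D]

/-- A group generated by a polynomial sequence is finitely generated. -/
theorem fg_of_seq (M : Type) [Group M] (k : ℕ → M) (s : ℕ) (h : Seq M k s) : Group.FG M := by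
  obtain ⟨K, hK⟩ := h.diff
  set G0 : Subgroup M := Subgroup.closure ((fun j => D^[j] k 0) '' (Set.Iio K)) with hG0
  have key : ∀ (n j : ℕ), D^[j] k n ∈ G0 := by
    intro n
    induction n with
    | zero =>
      intro j
      by_cases hj : j < K
      · exact Subgroup.subset_closure ⟨j, hj, rfl⟩
      · have h1 : D^[j] k = fun _ => 1 := by
          obtain ⟨i, rfl⟩ := Nat.exists_eq_add_of_le (not_lt.1 hj)
          rw [Nat.add_comm, Function.iterate_add_apply, hK, D_one]
        rw [h1]
        exact G0.one_mem
    | succ n ih =>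
      intro j
      have h1 : D^[j] k (n + 1) = D^[j] k n * D^[j + 1] k n := by
        rw [Function.iterate_succ_apply']
        simp [D]
      rw [h1]
      exact G0.mul_mem (ih j) (ih (j + 1))
  have htop : G0 = ⊤ := by
    rw [eq_top_iff, ← h.gen, Subgroup.closure_le]
    rintro _ ⟨n, rfl⟩
    exact key n 0
  rw [Group.fg_iff]
  exact ⟨_, htop, (Set.finite_Iio K).image _⟩

theorem pw_normal (M : Type) [Group M] (r : ℕ) : (Pw M r).Normal := by
  unfold Pw
  refine ⟨fun n hn g => ?_⟩
  refine Subgroup.closure_induction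
    (p := fun x _ => g * x * g⁻¹ ∈ Subgroup.closure {x | ∃ g : M, x = g ^ r}) ?_ ?_ ?_ ?_ hn
  · rintro x ⟨y, rfl⟩
    refine Subgroup.subset_closure ⟨g * y * g⁻¹, ?_⟩
    rw [conj_pow]
  · simp
  · intro x y _ _ hx hy
    have : g * (x * y) * g⁻¹ = (g * x * g⁻¹) * (g * y * g⁻¹) := by group
    rw [this]
    exact mul_mem hx hy
  · intro x _ hx
    have : g * x⁻¹ * g⁻¹ = (g * x * g⁻¹)⁻¹ := by group
    rw [this]
    exact inv_mem hx

/-- A finitely generated nilpotent group of finite exponent is finite. -/
theorem finite_of_exp (r : ℕ) (hr : 0 < r) (G : Type) [Group G] [Group.IsNilpotent G] :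
    Group.FG G → (∀ x : G, x ^ r = 1) → Finite G := by
  refine Group.nilpotent_center_quotient_ind
    (P := fun G _ _ => Group.FG G → (∀ x : G, x ^ r = 1) → Finite G) G ?_ ?_
  · intro G _ _ _ _
    infer_instance
  · intro G _ _ ih hfg hexp
    have hfin : Finite (G ⧸ Subgroup.center G) := by
      refine ih inferInstance ?_
      intro x
      induction x using QuotientGroup.induction_on with
      | H x => rw [← QuotientGroup.mk_pow, hexp, QuotientGroup.mk_one]
    have : (Subgroup.center G).FiniteIndex := Subgroup.finiteIndex_of_finite_quotient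
    have : Group.FG (Subgroup.center G) := Subgroup.fg_of_index_ne_zero _
    have : Finite (Subgroup.center G) := by
      let _ : CommGroup (Subgroup.center G) :=
        { (inferInstance : Group (Subgroup.center G)) with
          mul_comm := fun a b => Subtype.ext (Subgroup.mem_center_iff.1 b.2 a) }
      refine CommGroup.finite_of_fg_isMulTorsion (G := Subgroup.center G) ?_
      intro z
      rw [isOfFinOrder_iff_pow_eq_one]
      exact ⟨r, hr, by ext; simpa using hexp z⟩
    exact Finite.of_equiv _ (Subgroup.groupEquivQuotientProdSubgroup (s := Subgroup.center G)).symm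

theorem t_FIN : S_FIN := by
  intro M _ k s h r hr
  have hn := pw_normal M r
  refine ⟨hn, ?_⟩
  have : Group.FG M := fg_of_seq M k s h
  have : Group.IsNilpotent M := ⟨⟨s, h.cls⟩⟩
  have : Finite (M ⧸ Pw M r) := by
    refine finite_of_exp r hr (M ⧸ Pw M r) inferInstance ?_
    intro x
    induction x using QuotientGroup.induction_on with
    | H x =>
      rw [← QuotientGroup.mk_pow, QuotientGroup.eq_one_iff]
      exact Subgroup.subset_closure ⟨x, rfl⟩
  exact Subgroup.finiteIndex_of_finite_quotient

theorem t_EXP : S_EXP := by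
  intro G _ _ d hd
  refine Group.nilpotent_center_quotient_ind
    (P := fun G _ _ => (∀ z ∈ Subgroup.center G, z ^ d = 1) → ∃ e : ℕ, 0 < e ∧ ∀ x : G, x ^ e = 1)
    G ?_ ?_
  · intro G _ _ _
    exact ⟨1, one_pos, fun x => Subsingleton.elim _ _⟩
  · intro G _ _ ih hz
    obtain ⟨e', he', hx⟩ := ih (by
      intro z hzc
      induction z using QuotientGroup.induction_on with
      | H x =>
        rw [← QuotientGroup.mk_pow, QuotientGroup.eq_one_iff, Subgroup.mem_center_iff]
        -- `[x, y]` is central for all `y`
        have hc : ∀ y : G, x * y * x⁻¹ * y⁻¹ ∈ Subgroup.center G := by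
          intro y
          rw [← QuotientGroup.eq_one_iff]
          rw [Subgroup.mem_center_iff] at hzc
          have h1 := hzc (y : G ⧸ Subgroup.center G)
          rw [QuotientGroup.mk_mul, QuotientGroup.mk_mul, QuotientGroup.mk_mul,
            QuotientGroup.mk_inv, QuotientGroup.mk_inv, ← h1]
          group
        intro y
        -- x^n y x^{-n} = c^n y
        have hpow : ∀ n : ℕ, x ^ n * y * (x ^ n)⁻¹ = (x * y * x⁻¹ * y⁻¹) ^ n * y := by
          intro n
          induction n with
          | zero => simp
          | succ n ihn =>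
            have hcc := (Subgroup.mem_center_iff.1 (Subgroup.pow_mem _ (hc y) n)) x
            calc x ^ (n + 1) * y * (x ^ (n + 1))⁻¹ = x * (x ^ n * y * (x ^ n)⁻¹) * x⁻¹ := by
                  rw [pow_succ']; group
              _ = x * (x * y * x⁻¹ * y⁻¹) ^ n * y * x⁻¹ := by rw [ihn]; group
              _ = (x * y * x⁻¹ * y⁻¹) ^ n * x * y * x⁻¹ := by rw [hcc]
              _ = (x * y * x⁻¹ * y⁻¹) ^ n * (x * y * x⁻¹ * y⁻¹) * y := by group
              _ = (x * y * x⁻¹ * y⁻¹) ^ (n + 1) * y := by rw [pow_succ]
        have h2 := hpow d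
        rw [hz _ (hc y), one_mul] at h2
        calc y * x ^ d = (x ^ d * y * (x ^ d)⁻¹) * x ^ d := by rw [h2]
          _ = x ^ d * y := by group)
    refine ⟨e' * d, Nat.mul_pos he' hd, fun x => ?_⟩
    rw [pow_mul]
    refine hz _ ?_
    have h3 := hx (x : G ⧸ Subgroup.center G)
    rwa [← QuotientGroup.mk_pow, QuotientGroup.eq_one_iff] at h3

end Pool.Agent.U678.NIL
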